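import Pool.Agent.Lib.MP_f9c8ff_an.Mo.Fin

namespace Pool.Agent.Results.MP_f9c8ff_an.Monotone

open Pool.Agent.Lib.MP_f9c8ff_an

theorem result (n : ℕ) (hn : 1 ≤ n) :
    (n : ℝ) * (n + 2) / (n + 1) ^ 2 < P3.Cn (n + 1) / P3.Cn n ∧ P3.Cn (n + 1) / P3.Cn n < 1 := by
  have n0 : (0 : ℝ) < n := by exact_mod_cast hn
  have h0 : 0 < P3.Cn n := by
    have := Mo.x_pos n
    have := Real.pi_pos
    rw [Mo.Cn_ss hn]
    positivity
  have h1 := Mo.main.1 n hn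
  refine ⟨?_, (div_lt_one h0).mpr (Mo.main.2.1 n hn)⟩
  rw [div_lt_div_iff₀ (by positivity) (by positivity)] at h1
  rw [div_lt_div_iff₀ (by positivity) h0]
  nlinarith

end Pool.Agent.Results.MP_f9c8ff_an.Monotone
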