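import Pool.Agent.Lib.MP_f9c8ff_an.P3.Main

namespace Pool.Agent.Results.MP_f9c8ff_an.Painleve

open Pool.Agent.Lib.MP_f9c8ff_an.P3 Filter Topology

theorem result :
    (∀ (κ : ℝ) (v : ℝ → ℝ), Sol κ v → C = Real.pi / κ) ∧
    Tendsto Cn atTop (𝓝 C) ∧
    (∃ v c s : ℕ → ℝ, Rec v c s) ∧
    ∀ v c s : ℕ → ℝ, Rec v c s →
      Sol (Real.pi / C) (fun t => ∑' k, v k * t ^ k) ∧
      ∀ t : ℝ, 0 ≤ t → ((Summable fun k => v k * t ^ k) ↔ t < Real.pi / C) := by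
  refine ⟨fun _ _ h => C_eq h, ?_, ser.1, fun v c s h => ?_⟩
  · obtain ⟨v, c, s, h⟩ := ser.1
    obtain ⟨κ, h1, _⟩ := ser.2 v c s h
    rw [C_eq h1]
    exact tendsto_Cn h1
  · obtain ⟨κ, h1, h2⟩ := ser.2 v c s h
    rw [kappa_eq h1]
    exact ⟨h1, h2⟩

end Pool.Agent.Results.MP_f9c8ff_an.Painleve
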