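import Pool.Agent.Lib.MP_f9c8ff_an.Mo.Fin

namespace Pool.Agent.Results.MP_f9c8ff_an.Rate

open Pool.Agent.Lib.MP_f9c8ff_an

theorem result (n : ℕ) (hn : 1 ≤ n) :
    1 / (100 * P3.C ^ 2 * (n + 1)) ≤ (n + 1) * P3.C - n * P3.Cn n ∧
      (n + 1) * P3.C - n * P3.Cn n ≤ 3 * P3.C / (5 * n) ∧ 0 < P3.C := by
  obtain ⟨h1, h2⟩ := Mo.main.2.2.2 n hn
  refine ⟨by linarith, by linarith, ?_⟩
  obtain ⟨κ, k0, h⟩ := Mo.exists_lim
  have := Real.pi_pos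
  rw [show P3.C = Real.pi / (2 * κ) from (Mo.tendsto_C k0 h).limsup_eq]
  positivity

end Pool.Agent.Results.MP_f9c8ff_an.Rate
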